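import Mathlib
import Pool.Agent.H3.TRProof

set_option autoImplicit false

open FirstOrder FirstOrder.Language MeasureTheory Pool.Agent.H3.TR

namespace Pool.Agent.Results.MP_96f494_lc.AlmostAll

/-- For every numbering of the first-order sentences of the language of rings and for almost all
`σ ∈ Gal(ℚ^tr/ℚ)` (normalised Haar measure), the complete theory of `ℤ^tr(σ)` is undecidable.
The first conjunct says that the normalised Haar measure exists. -/
theorem result [MeasurableSpace G] [BorelSpace G] :
    (∃ μ : Measure G, μ.IsHaarMeasure ∧ IsProbabilityMeasure μ) ∧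
    ∀ (μ : Measure G) [μ.IsHaarMeasure] [IsProbabilityMeasure μ] (code : Language.ring.Sentence → ℕ),
      ∀ᵐ σ ∂μ, ¬ DecidableTheory code (ZtrFixed σ) :=
  final

end Pool.Agent.Results.MP_96f494_lc.AlmostAll
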